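import Pool.Agent.Q58.LG.Kob
import Pool.Agent.Q58.LG.WdgP

/-!
MP_1e3e9c_ag, Q1: Kobayashi's conjecture for the finite images of arbitrary smooth complete
intersections whose dimension is larger than the degree of the map.

Let `X₀ = {F = 0}` in `ℙⁿ` be a smooth complete intersection over `ℂ` of hypersurfaces of degrees
`d_a ≥ 1`, of dimension `w = n - |A| ≥ 1`, and let `G : X₀ → X = {Φ = 0}` be a finite surjective
morphism to a projective variety, smooth or not, with fibres of at most `r` points (for example a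
quotient by a group of order `r`, or a projection with any ramification).

(A) If `X` is Kobayashi hyperbolic, i.e. there is no nonconstant entire curve in `X`, then there is no
rational curve in `X`.

(B) If there is no rational curve in `X` then `∑ d_a ≥ n + w - 1`.

(C) If there is no rational curve in `X` and `r ≤ w - 2`, then `X` is of general type: the canonical
class of a resolution is big.

(D) If there is no rational curve in `X`, and `r ≤ w - 1`, or `r ≤ 2 w - 3` and all `d_a ≤ w - 1`, then
the geometric genus of `X` is positive, the Kodaira dimension is at least `0`, the canonical class is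
pseudo-effective, and `X` is not uniruled.

(E) In any case, if `∑ d_a ≥ n + 1 + r` then `X` is of general type.

By well-known results (the cone theorem and the base point free theorem), the canonical class of a
smooth projective variety without rational curves is ample if it is big. So by (A) and (C) Kobayashi's
conjecture holds for the smooth projective varieties `X` of dimension `w` which are images of smooth
complete intersections under finite morphisms with fibres of at most `w - 2` points. (This last step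
is not in the Lean.)

The proof: by (E), which uses traces of canonical forms, it is enough to find a rational curve if
`∑ d_a ≤ n + r`. Then `∑ (d_a + 1) ≤ n + r + (n - w) ≤ 2 n - 2`, and every projective set given by
complex forms with `∑ (d_a + 1) ≤ 2 n - 2` contains a line: for generic forms this is in the starting
repository, and the general case follows by compactness. The image of the line is a rational curve.

`SubVar Φ L w z`: `z` is the generic point, and `L` the function field, of a closed subvariety of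
dimension `w` of `X` (so of `X`, which is irreducible of dimension `w`).
`GeneralType` (`Pool/Agent/W602/GT/Defs.lean`), `KodGe` (`KDefs.lean`), `Psef`, `SubVar`, `Cone`
(`SpDefs.lean`), `IsUniruled` (`Pool/Agent/W619/PQ/Defs.lean`), `HasForm`
(`Pool/Agent/Q58/LG/WdgP.lean`), `Mor`, `Onto`, `FibresLe`, `Entire` (`Pool/Agent/Y221/FQ/Defs.lean`).
-/

set_option autoImplicit false

namespace Pool.Agent.Results.MP_1e3e9c_ag.ImagesOfIntersections

open MvPolynomial FF
open Pool.Agent.W602.GT (IsForm Cone SubVar GeneralType KodGe Psef)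
open Pool.Agent.W619.PQ (IsUniruled)
open Pool.Agent.Y221.FQ (Mor Onto FibresLe Entire)
open Pool.Agent.Q58.LG (HasForm)

/-- The projective scheme `F a = 0` is smooth, of codimension equal to the number of equations (or
empty). -/
def SmoothCI {n : ℕ} {A : Type} (F : A → MvPolynomial (Fin (n + 1)) ℂ) : Prop :=
  ∀ z : Fin (n + 1) → ℂ, z ≠ 0 → (∀ a, eval z (F a) = 0) →
    LinearIndependent ℂ fun (a : A) (j : Fin (n + 1)) => eval z (pderiv j (F a))

/-- The forms `P 0, ..., P M` in two variables define a nonconstant morphism from the projective line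
to the projective variety `{Φ = 0}`. -/
structure RationalCurve {M : ℕ} {μ : Type} (Φ : μ → MvPolynomial (Fin (M + 1)) ℂ)
    (P : Fin (M + 1) → MvPolynomial (Fin 2) ℂ) : Prop where
  form : ∃ e, ∀ j, (P j).IsHomogeneous e
  mem : ∀ u : Fin 2 → ℂ, u ≠ 0 → (fun j => eval u (P j)) ∈ Cone Φ
  nonconst : ∃ u v : Fin 2 → ℂ, u ≠ 0 ∧ v ≠ 0 ∧
    LinearIndependent ℂ ![fun j => eval u (P j), fun j => eval v (P j)]

theorem result {n M r w : ℕ} (hw : 1 ≤ w)
    -- a smooth complete intersection of dimension `w`
    {A : Type} [Fintype A] (d : A → ℕ) (hd0 : ∀ a, 1 ≤ d a)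
    (F : A → MvPolynomial (Fin (n + 1)) ℂ) (hF : ∀ a, (F a).IsHomogeneous (d a))
    (hsm : SmoothCI F) (hn : w + Fintype.card A = n)
    -- a finite morphism onto a projective variety, with fibres of at most `r` points
    {μ : Type} (Φ : μ → MvPolynomial (Fin (M + 1)) ℂ)
    (G : Fin (M + 1) → MvPolynomial (Fin (n + 1)) ℂ) (hG : Mor F Φ G) (hon : Onto F Φ G)
    (hfib : FibresLe F G r) :
    -- (A)
    ((∀ f, ¬ Entire Φ f) → ∀ P, ¬ RationalCurve Φ P) ∧
    -- (B)
    ((∀ P, ¬ RationalCurve Φ P) → n + w ≤ ∑ a, d a + 1) ∧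
    -- (C)
    ((∀ P, ¬ RationalCurve Φ P) → r + 2 ≤ w →
      ∀ (L : Type) [Field L] [Algebra ℂ L] (z : Fin (M + 1) → L), SubVar Φ L w z →
        GeneralType ℂ L w) ∧
    -- (D)
    ((∀ P, ¬ RationalCurve Φ P) → r + 1 ≤ w ∨ (r + 3 ≤ 2 * w ∧ ∀ a, d a + 1 ≤ w) →
      ∀ (L : Type) [Field L] [Algebra ℂ L] (z : Fin (M + 1) → L), SubVar Φ L w z →
        HasForm L w ∧ KodGe ℂ L w (fun _ => False) 0 ∧ Psef ℂ L w (fun _ => False) ∧
          ¬ IsUniruled ℂ L w) ∧
    -- (E)
    (n + 1 + r ≤ ∑ a, d a →
      ∀ (L : Type) [Field L] [Algebra ℂ L] (z : Fin (M + 1) → L), SubVar Φ L w z →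
        GeneralType ℂ L w) := by
  classical
  have hF' : ∀ a, IsForm (F a) := fun a => ⟨_, hF a⟩
  have hsum : ∑ a, (d a + 1) = ∑ a, d a + Fintype.card A := by
    rw [Finset.sum_add_distrib, Finset.sum_const, smul_eq_mul, mul_one, Finset.card_univ]
  -- (B)
  have hB : (∀ P, ¬ RationalCurve Φ P) → n + w ≤ ∑ a, d a + 1 := by
    intro hno
    by_contra hlt
    push Not at hlt
    obtain ⟨a, b, hab, h⟩ := Pool.Agent.Q58.LG.line_any (show 1 ≤ n by omega)
      (fun a => hd0 a) hF (by rw [hsum]; omega)
    obtain ⟨P, hP⟩ := Pool.Agent.Q58.LG.rat_of_line hF' hG hab h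
    exact hno P ⟨hP.form, hP.mem, hP.nonconst⟩
  -- the correspondence
  have key : ∀ (L : Type) [Field L] [Algebra ℂ L] (z : Fin (M + 1) → L), SubVar Φ L w z →
      ∀ N : ℕ, N + n + 1 = ∑ a, d a → (r ≤ N → GeneralType ℂ L w) ∧
        (r ≤ N + 1 ∨ (r ≤ 2 * N + 1 ∧ ∀ a, d a ≤ N + 1) →
          HasForm L w ∧ KodGe ℂ L w (fun _ => False) 0 ∧ Psef ℂ L w (fun _ => False) ∧
          ¬ IsUniruled ℂ L w) := by
    intro L _ _ z hz N hN
    obtain ⟨E, i1, i2, i3, i4, i5, u, i0, c, hrk, hu0, huΨ, hc0, hcz, htop⟩ :=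
      Pool.Agent.Y221.FQ.lift_point hF' hG hon hfib hz.ne hz.mem
    have halg := Pool.Agent.Y221.FQ.lift_alg hF' (Pool.Agent.Y221.AH.mor_Xk (F := F)) hz.gen hu0
      huΨ hc0 hcz htop
    rw [Pool.Agent.Y221.AH.im_Xk] at halg
    have hu : u ≠ 0 := by
      intro h0
      rw [h0] at hu0
      exact zero_ne_one hu0
    have hess : Algebra.EssFiniteType ℂ L := Pool.Agent.W602.GT.essFinite hz.gen
    have h := Pool.Agent.Q58.CI.corr_ci (N := N) hw hF hsm hN hn (L := L) (E := E) hz.dim hu huΨ
      halg
    refine ⟨fun hr => h.1 (hrk.trans hr), fun hr => ?_⟩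
    obtain ⟨θ, hθ, hreg, D, hD⟩ := h.2 (by
      rcases hr with hr | ⟨hr, hda⟩
      · exact Or.inl (hrk.trans hr)
      · exact Or.inr ⟨hrk.trans hr, hda⟩)
    have hK : KodGe ℂ L w (fun _ => False) 0 :=
      ⟨1, one_pos, fun _ => θ, fun _ => ⟨hθ, fun P hP D' hD' =>
        hreg P hP D' fun i => Pool.Agent.TH466.QG.derReg_of_log (hD' i),
        fun P hP _ => hreg P hP⟩, D, hD, algebraicIndependent_empty_type⟩
    have hP : Psef ℂ L w (fun _ => False) := Pool.Agent.W602.GT.psef_of_kodGe hK
    exact ⟨⟨θ, hθ, hreg, D, hD⟩, hK, hP, fun hu =>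
      (Pool.Agent.W619.Y.uniruled_neg w hz.dim hu).1 ((Pool.Agent.TH466.QG.psef_iff w).1 hP)⟩
  refine ⟨fun hno P hP => ?_, hB, fun hno hr L _ _ z hz => ?_, fun hno hr L _ _ z hz => ?_,
    fun hd L _ _ z hz => ?_⟩
  · obtain ⟨f, hf⟩ := Pool.Agent.Q58.LG.RatCurve.entire (Φ := Φ) ⟨hP.form, hP.mem, hP.nonconst⟩
    exact hno f hf
  · have h1 := hB hno
    exact (key L z hz (∑ a, d a - n - 1) (by omega)).1 (by omega)
  · have h1 := hB hno
    rcases hr with hr | ⟨hr, hda⟩
    · by_cases hw2 : w = 1
      · -- `r = 0`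
        exfalso
        obtain ⟨E, i1, i2, i3, i4, i5, u, i0, c, hrk, -⟩ :=
          Pool.Agent.Y221.FQ.lift_point hF' hG hon hfib hz.ne hz.mem
        have h2 : 0 < Module.finrank L E := Module.finrank_pos
        omega
      · exact (key L z hz (∑ a, d a - n - 1) (by omega)).2 (Or.inl (by omega))
    · by_cases hw2 : w = 1
      · omega
      · refine (key L z hz (∑ a, d a - n - 1) (by omega)).2 (Or.inr ⟨by omega, fun a => ?_⟩)
        have := hda a
        omega
  · exact (key L z hz (∑ a, d a - n - 1) (by omega)).1 (by omega)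

end Pool.Agent.Results.MP_1e3e9c_ag.ImagesOfIntersections
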