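import Pool.Agent.Q58.LG.KobQ

/-!
MP_1e3e9c_ag, Q1: Kobayashi's conjecture for the finite images of products of smooth complete
intersections, for instance for quotients of such products by finite groups.

Let `Y_i`, `i < s`, `s ≥ 1`, be smooth complete intersections in `ℙ^(n_i)` over `ℂ` of hypersurfaces of
degrees `d_{i,a} ≥ 1`, of dimensions `w_i ≥ 1`, let `W = {Ψ = 0}` be their product, in its Segre
embedding, and let `G : W → X = {Φ = 0}` be a finite surjective morphism to a projective variety, smooth
or not, with fibres of at most `r` points. The branch locus of `G` is arbitrary, and `X` has in general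
no morphisms to the `Y_i`. The dimension of `X` is `w = ∑ w_i`.

(A) If `X` is Kobayashi hyperbolic, i.e. there is no nonconstant entire curve in `X`, then there is no
rational curve in `X`.

(B) If there is no rational curve in `X` then `∑_a d_{i,a} ≥ n_i + w_i - 1` for all `i`.

(C) If there is no rational curve in `X` and `r ≤ w_i - 2` for all `i`, then `X` is of general type: the
canonical class of a resolution is big.

(D) If there is no rational curve in `X` and `r ≤ w_i - 1` for all `i`, then the geometric genus of `X`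
is positive, the Kodaira dimension is at least `0`, the canonical class is pseudo-effective, and `X` is
not uniruled.

(E) In any case, if `∑_a d_{i,a} ≥ n_i + 1 + r` for all `i` then `X` is of general type.

(F) In any case, if `∑_a d_{i,a} ≥ n_i + r` for all `i` then the conclusion of (D) holds.

By well-known results (the cone theorem and the base point free theorem), the canonical class of a
smooth projective variety without rational curves is ample if it is big. So by (A) and (C) Kobayashi's
conjecture holds for the smooth projective varieties `X` which are images of products of smooth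
complete intersections of dimensions `w_i` under finite morphisms with fibres of at most `min w_i - 2`
points. (This last step is not in the Lean.)

The proof. Over the function field `L` of `X` there is a point of `W` over an extension `E` of degree at
most `r`; its factors are the generic points of the `Y_i`. The residues of forms give canonical forms on
`Y_i` whose products with all monomials of degree `N_i = ∑_a d_{i,a} - n_i - 1` are regular; the exterior
products are forms on `W` such that the products with all monomials of degree `min N_i` in the Segre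
coordinates are regular. These separate `r` points, so that some trace to `X` is not zero, and there are
many of them if `r ≤ min N_i`. If `∑_a (d_{i,a} + 1) ≤ 2 n_i - 2` for some `i` then `Y_i` contains a line, so
`W` contains a line, and its image in `X` is a rational curve.

`SubVar Φ L w z`: `z` is the generic point, and `L` the function field, of a closed subvariety of
dimension `w` of `X` (so of `X`, if it is irreducible).
`segre`, `IsProduct` are in `Pool/Agent/Q58/LG/KobP.lean`, `GeneralType` in
`Pool/Agent/W602/GT/Defs.lean`, `KodGe` in `KDefs.lean`, `Psef` in `PsefDefs.lean`, `SubVar`, `Cone` in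
`SpDefs.lean`, `IsUniruled` in `Pool/Agent/W619/PQ/Defs.lean`, `HasForm` in
`Pool/Agent/Q58/LG/WdgP.lean`, `Mor`, `Onto`, `FibresLe`, `Entire` in `Pool/Agent/Y221/FQ/Defs.lean`.
-/

set_option autoImplicit false

namespace Pool.Agent.Results.MP_1e3e9c_ag.ImagesOfProducts

open MvPolynomial FF
open Pool.Agent.W602.GT (IsForm Cone SubVar GeneralType KodGe Psef)
open Pool.Agent.W619.PQ (IsUniruled)
open Pool.Agent.Y221.FQ (Mor Onto FibresLe Entire)
open Pool.Agent.Q58.LG (HasForm IsProduct)

/-- The projective scheme `F a = 0` is smooth, of codimension equal to the number of equations (or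
empty). -/
def SmoothCI {n : ℕ} {A : Type} (F : A → MvPolynomial (Fin (n + 1)) ℂ) : Prop :=
  ∀ z : Fin (n + 1) → ℂ, z ≠ 0 → (∀ a, eval z (F a) = 0) →
    LinearIndependent ℂ fun (a : A) (j : Fin (n + 1)) => eval z (pderiv j (F a))

/-- The forms `P 0, ..., P M` in two variables define a nonconstant morphism from the projective line
to the projective variety `{Φ = 0}`. -/
structure RationalCurve {M : ℕ} {μ : Type} (Φ : μ → MvPolynomial (Fin (M + 1)) ℂ)
    (P : Fin (M + 1) → MvPolynomial (Fin 2) ℂ) : Prop where
  form : ∃ e, ∀ j, (P j).IsHomogeneous e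
  mem : ∀ u : Fin 2 → ℂ, u ≠ 0 → (fun j => eval u (P j)) ∈ Cone Φ
  nonconst : ∃ u v : Fin 2 → ℂ, u ≠ 0 ∧ v ≠ 0 ∧
    LinearIndependent ℂ ![fun j => eval u (P j), fun j => eval v (P j)]

/-- The varieties of dimension `w` with function field `L` have positive geometric genus and
nonnegative Kodaira dimension, their canonical class is pseudo-effective and they are not
uniruled. -/
def Effective (L : Type) [Field L] [Algebra ℂ L] (w : ℕ) : Prop :=
  HasForm L w ∧ KodGe ℂ L w (fun _ => False) 0 ∧ Psef ℂ L w (fun _ => False) ∧ ¬ IsUniruled ℂ L w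

theorem result {s m M r : ℕ} (hs : 1 ≤ s)
    -- smooth complete intersections of dimensions `w i`
    {n w : Fin s → ℕ} (hw : ∀ i, 1 ≤ w i) {A : Fin s → Type} [∀ i, Fintype (A i)]
    (d : ∀ i, A i → ℕ) (hd0 : ∀ i a, 1 ≤ d i a)
    (F : ∀ i, A i → MvPolynomial (Fin (n i + 1)) ℂ) (hF : ∀ i a, (F i a).IsHomogeneous (d i a))
    (hsm : ∀ i, SmoothCI (F i)) (hn : ∀ i, w i + Fintype.card (A i) = n i)
    -- their product in its Segre embedding
    {κ : Type} (Ψ : κ → MvPolynomial (Fin (m + 1)) ℂ) (e : Fin (m + 1) ≃ ∀ i, Fin (n i + 1))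
    (hΨ : IsProduct F e Ψ)
    -- a finite morphism onto a projective variety, with fibres of at most `r` points
    {μ : Type} (Φ : μ → MvPolynomial (Fin (M + 1)) ℂ)
    (G : Fin (M + 1) → MvPolynomial (Fin (m + 1)) ℂ) (hG : Mor Ψ Φ G) (hon : Onto Ψ Φ G)
    (hfib : FibresLe Ψ G r) :
    -- (A)
    ((∀ f, ¬ Entire Φ f) → ∀ P, ¬ RationalCurve Φ P) ∧
    -- (B)
    ((∀ P, ¬ RationalCurve Φ P) → ∀ i, n i + w i ≤ ∑ a, d i a + 1) ∧
    -- (C)
    ((∀ P, ¬ RationalCurve Φ P) → (∀ i, r + 2 ≤ w i) →
      ∀ (L : Type) [Field L] [Algebra ℂ L] (z : Fin (M + 1) → L), SubVar Φ L (∑ i, w i) z →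
        GeneralType ℂ L (∑ i, w i)) ∧
    -- (D)
    ((∀ P, ¬ RationalCurve Φ P) → (∀ i, r + 1 ≤ w i) →
      ∀ (L : Type) [Field L] [Algebra ℂ L] (z : Fin (M + 1) → L), SubVar Φ L (∑ i, w i) z →
        Effective L (∑ i, w i)) ∧
    -- (E)
    ((∀ i, n i + 1 + r ≤ ∑ a, d i a) →
      ∀ (L : Type) [Field L] [Algebra ℂ L] (z : Fin (M + 1) → L), SubVar Φ L (∑ i, w i) z →
        GeneralType ℂ L (∑ i, w i)) ∧
    -- (F)
    ((∀ i, n i + r ≤ ∑ a, d i a) →
      ∀ (L : Type) [Field L] [Algebra ℂ L] (z : Fin (M + 1) → L), SubVar Φ L (∑ i, w i) z →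
        Effective L (∑ i, w i)) := by
  classical
  have hw1 : 1 ≤ ∑ i, w i := by
    have h1 := Finset.single_le_sum (f := w) (fun _ _ => Nat.zero_le _)
      (Finset.mem_univ (⟨0, hs⟩ : Fin s))
    exact (hw _).trans h1
  -- (B)
  have hB : (∀ P, ¬ RationalCurve Φ P) → ∀ i, n i + w i ≤ ∑ a, d i a + 1 := by
    intro hno i
    by_contra hlt
    push Not at hlt
    have hsum : ∑ a, (d i a + 1) = ∑ a, d i a + Fintype.card (A i) := by
      rw [Finset.sum_add_distrib, Finset.sum_const, smul_eq_mul, mul_one, Finset.card_univ]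
    have hni := hn i
    have hwi := hw i
    obtain ⟨a, b, hab, h⟩ := Pool.Agent.Q58.LG.line_any (show 1 ≤ n i by omega)
      (fun a => hd0 i a) (hF i) (by rw [hsum]; omega)
    have hpt : ∀ l, ∃ y, y ∈ Cone (F l) := by
      intro l
      have hnl := hn l
      obtain ⟨x, hx, hx0⟩ := Pool.Agent.H952R2.Sextic.exists_common_zero (K := ℂ)
        (ι := Fin (n l + 1)) (κ := A l) (by rw [Fintype.card_fin]; omega) (F l) (fun a => by
          have h1 := Pool.Agent.W602.GT.val_smul (hF l a) (0 : ℂ) (0 : Fin (n l + 1) → ℂ)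
          have h2 : (fun j => (0 : ℂ) * (0 : Fin (n l + 1) → ℂ) j) = 0 := by
            funext j
            simp
          rw [h2, zero_pow (by have := hd0 l a; omega), zero_mul] at h1
          exact h1)
      exact ⟨x, hx, fun a => hx0 a⟩
    obtain ⟨a', b', hab', h'⟩ := Pool.Agent.Q58.LG.line_prod hΨ hpt hab h
    obtain ⟨P, hP⟩ := Pool.Agent.Q58.LG.rat_of_line hΨ.form hG hab' h'
    exact hno P ⟨hP.form, hP.mem, hP.nonconst⟩
  -- the correspondence
  have key : ∀ (L : Type) [Field L] [Algebra ℂ L] (z : Fin (M + 1) → L), SubVar Φ L (∑ i, w i) z →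
      0 < r ∧ ∀ N : ℕ, (∀ i, N + n i + 1 ≤ ∑ a, d i a) →
        (r ≤ N → GeneralType ℂ L (∑ i, w i)) ∧ (r ≤ N + 1 → Effective L (∑ i, w i)) := by
    intro L _ _ z hz
    obtain ⟨E, i1, i2, i3, i4, i5, u, i0, c, hrk, hu0, huΨ, hc0, hcz, htop⟩ :=
      Pool.Agent.Y221.FQ.lift_point hΨ.form hG hon hfib hz.ne hz.mem
    refine ⟨lt_of_lt_of_le Module.finrank_pos hrk, fun N hN => ?_⟩
    have halg := Pool.Agent.Y221.FQ.lift_alg hΨ.form (Pool.Agent.Y221.AH.mor_Xk (F := Ψ)) hz.gen
      hu0 huΨ hc0 hcz htop
    rw [Pool.Agent.Y221.AH.im_Xk] at halg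
    have hess : Algebra.EssFiniteType ℂ L := Pool.Agent.W602.GT.essFinite hz.gen
    have h := Pool.Agent.Q58.LG.corr_prod (N := N) hw1 hF hsm hN hn rfl hΨ (L := L) (E := E) hz.dim
      hu0 huΨ halg
    refine ⟨fun hr => h.1 (hrk.trans hr), fun hr => ?_⟩
    obtain ⟨θ, hθ, hreg, D, hD⟩ := h.2 (hrk.trans hr)
    have hK : KodGe ℂ L (∑ i, w i) (fun _ => False) 0 :=
      ⟨1, one_pos, fun _ => θ, fun _ => ⟨hθ, fun P hP D' hD' =>
        hreg P hP D' fun i => Pool.Agent.TH466.QG.derReg_of_log (hD' i),
        fun P hP _ => hreg P hP⟩, D, hD, algebraicIndependent_empty_type⟩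
    have hP : Psef ℂ L (∑ i, w i) (fun _ => False) := Pool.Agent.W602.GT.psef_of_kodGe hK
    exact ⟨⟨θ, hθ, hreg, D, hD⟩, hK, hP, fun hu =>
      (Pool.Agent.W619.Y.uniruled_neg (∑ i, w i) hz.dim hu).1
        ((Pool.Agent.TH466.QG.psef_iff (∑ i, w i)).1 hP)⟩
  refine ⟨fun hno P hP => ?_, hB, fun hno hr L _ _ z hz => ?_, fun hno hr L _ _ z hz => ?_,
    fun hd L _ _ z hz => ?_, fun hd L _ _ z hz => ?_⟩
  · obtain ⟨f, hf⟩ := Pool.Agent.Q58.LG.RatCurve.entire (Φ := Φ) ⟨hP.form, hP.mem, hP.nonconst⟩
    exact hno f hf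
  · exact ((key L z hz).2 r (fun i => by
      have h1 := hB hno i
      have h2 := hr i
      omega)).1 le_rfl
  · have hr0 := (key L z hz).1
    exact ((key L z hz).2 (r - 1) (fun i => by
      have h1 := hB hno i
      have h2 := hr i
      omega)).2 (by omega)
  · exact ((key L z hz).2 r (fun i => by
      have h1 := hd i
      omega)).1 le_rfl
  · have hr0 := (key L z hz).1
    exact ((key L z hz).2 (r - 1) (fun i => by
      have h1 := hd i
      omega)).2 (by omega)

end Pool.Agent.Results.MP_1e3e9c_ag.ImagesOfProducts
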