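import Pool.Agent.Q80.FH.Ptd
import Pool.Agent.Q80.RA.Spec

/-!
MP_1e3e9c_ag, Q1: Kobayashi hyperbolicity and the canonical class, for the closed subvarieties of the
projective schemes with a finite morphism to projective space which is ramified over many general
hypersurfaces.

Definitions: `FinCover`, `Ramified`, `SubVar`, `Brody` (`Q80/FH/Defs.lean`); `GeneralType`
(`W602/GT/Defs.lean`): the canonical class of a smooth projective model is big; `PointedFinite`
(`Q80/FH/Ptd.lean`); `NoSpecial` (`Q80/RA/Spec.lean`).

By a well-known consequence of the base point free theorem and of the cone theorem, the canonical class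
of a smooth projective variety without rational curves is ample if it is big, so the canonical classes of
all smooth closed subvarieties are ample, as Kobayashi's conjecture predicts; this last step is not
formalised here.
-/

set_option autoImplicit false

namespace Pool.Agent.Results.MP_1e3e9c_ag.RamifiedCoversKobayashi

open Pool.Agent.Q80.FH Pool.Agent.Q80.RA MvPolynomial
open Pool.Agent.W602.GT (GeneralType)

/-- Let `n, d ≥ 1` and `m ≥ 2`, `N + 1 = C(n + d, n)`, `2 N m ≤ K (m - 1)` and `q > C(N + K, N)`. Let
`F 1, …, F q` be general forms of degree `d` in `n + 1` variables and `X` a projective scheme over `ℂ`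
with a finite morphism to projective `n`-space which is ramified with the multiplicity at least `m` over
the hypersurfaces `F i = 0`. Then all holomorphic maps from `ℂ` to `X` are constant, that is, `X` and its
closed subvarieties are Kobayashi hyperbolic; all closed subvarieties of `X` of positive dimension have a
big canonical class (on a smooth projective model); and all rational maps from special varieties (in
particular, from varieties with trivial canonical class, abelian varieties, rationally connected
varieties) to `X` are constant. -/
theorem result {n d m N K q : ℕ} (hn : 1 ≤ n) (hd : 1 ≤ d) (hm : 2 ≤ m)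
    (hN : N + 1 = (n + d).choose n) (hK : 2 * N * m ≤ K * (m - 1)) (hq : (N + K).choose N < q) :
    ∃ Ψ : MvPolynomial (Fin q × Exps n d) ℂ, Ψ ≠ 0 ∧
      ∀ F : Fin q → MvPolynomial (Fin (n + 1)) ℂ, (∀ i, (F i).IsHomogeneous d) →
        eval (fun x => coeff x.2.1 (F x.1)) Ψ ≠ 0 →
          ∀ (r : ℕ) (X : FinCover ℂ n r), X.Ramified F m d →
            X.Brody ∧
            (∀ (L : Type) [Field L] [Algebra ℂ L] (w : ℕ) (y : Fin (n + 1) → L) (z : Fin r → L),
              1 ≤ w → X.SubVar L w y z → GeneralType ℂ L w) ∧
            X.PointedFinite ∧ NoSpecial X := by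
  obtain ⟨Ψ, h1, h2⟩ := main_p hn hd hm hN hK hq
  refine ⟨Ψ, h1, fun F hF hΨ r X hR => ?_⟩
  obtain ⟨h3, h4, h5⟩ := (h2 F hF hΨ r X).1 hR
  exact ⟨h3, h4, h5, noSpecial h4⟩

end Pool.Agent.Results.MP_1e3e9c_ag.RamifiedCoversKobayashi
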