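import Mathlib.Order.Filter.AtTopBot.Basic
import Mathlib.Algebra.Order.Archimedean.Real.Basic
import Mathlib.Tactic

/-!
# Kobayashi's conjecture: the numerical dimension of the canonical class up to `o(dim)`

A Kobayashi hyperbolic projective manifold `X` contains no rational curves, so `K_X` is nef (Mori), and
`K_X` is ample if and only if it is big, that is, if and only if its numerical dimension `ν(X)` is `dim X`.
We show: if `K_X` is not ample for one hyperbolic `X` of dimension `n₀`, there are hyperbolic manifolds of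
each dimension `n` with `ν ≤ n - ⌊n / n₀⌋`; the conjecture holds if and only if `ν ≥ (1 - o(1)) n` for the
hyperbolic manifolds of dimension `n`, for infinitely many `n` only; more generally the inequality
`ν ≥ c dim X` with a fixed slope `c ≤ 1` holds for all hyperbolic `X` if and only if it holds up to `o(n)`
in infinitely many dimensions; and no hyperbolic `X` of positive dimension has a numerically trivial
canonical class if the minimum of `ν` in dimension `n` is an unbounded function of `n`.
-/

set_option autoImplicit false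

namespace Pool.Agent.Results.MP_1e3e9c_ag.SublinearErrors

open Filter

universe u

/-- Kobayashi hyperbolic smooth projective varieties. -/
structure Hyperbolic where
  /-- the varieties -/
  Var : Type u
  /-- the dimension -/
  dim : Var → ℕ
  /-- the numerical dimension of the canonical class (which is nef) -/
  nu : Var → ℕ
  /-- the canonical class is ample -/
  Ample : Var → Prop

/-- The known properties. -/
structure IsKnown (T : Hyperbolic.{u}) : Prop where
  /-- `ν ≤ dim X` -/
  nu_le : ∀ X, T.nu X ≤ T.dim X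
  /-- `K_X` is ample if and only if it is big (there are no rational curves on `X`) -/
  ample_iff : ∀ X, T.Ample X ↔ T.nu X = T.dim X
  /-- products of hyperbolic manifolds are hyperbolic -/
  prod : ∀ X Y, ∃ Z, T.dim Z = T.dim X + T.dim Y ∧ T.nu Z = T.nu X + T.nu Y
  /-- a curve of genus two -/
  curve : ∃ C, T.dim C = 1 ∧ T.nu C = 1

variable {T : Hyperbolic.{u}}

/-- Kobayashi's conjecture. -/
def Conjecture (T : Hyperbolic.{u}) : Prop := ∀ X : T.Var, T.Ample X

/-- `ν ≥ c dim X` for all hyperbolic `X`. -/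
def SlopeBound (T : Hyperbolic.{u}) (c : ℝ) : Prop := ∀ X : T.Var, c * T.dim X ≤ T.nu X

/-- For every `ε > 0` there are arbitrarily large `n` with `ν ≥ (c - ε) n` for all hyperbolic `X` of
dimension `n`. -/
def WeakSlopeBound (T : Hyperbolic.{u}) (c : ℝ) : Prop :=
  ∀ ε : ℝ, 0 < ε → ∃ᶠ n : ℕ in atTop, ∀ X : T.Var, T.dim X = n → (c - ε) * n ≤ T.nu X

theorem curves (hT : IsKnown T) : ∀ n : ℕ, 1 ≤ n → ∃ P, T.dim P = n ∧ T.nu P = n := by
  intro n hn
  induction n, hn using Nat.le_induction with
  | base => exact hT.curve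
  | succ n _ ih =>
    obtain ⟨P, h1, h2⟩ := ih
    obtain ⟨L, h3, h4⟩ := hT.curve
    obtain ⟨Z, h5, h6⟩ := hT.prod P L
    exact ⟨Z, by omega, by omega⟩

theorem powers (hT : IsKnown T) (X : T.Var) :
    ∀ k : ℕ, 1 ≤ k → ∃ P, T.dim P = k * T.dim X ∧ T.nu P = k * T.nu X := by
  intro k hk
  induction k, hk using Nat.le_induction with
  | base => exact ⟨X, by simp, by simp⟩
  | succ k _ ih =>
    obtain ⟨P, h1, h2⟩ := ih
    obtain ⟨W, h5, h6⟩ := hT.prod P X
    refine ⟨W, ?_, ?_⟩
    · rw [h5, h1]; ring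
    · rw [h6, h2]; ring

/-- In each dimension `n ≥ 1` there is a hyperbolic manifold with
`ν = ⌊n / dim X⌋ ν(X) + (n mod dim X)`. -/
theorem exists_power (hT : IsKnown T) (X : T.Var) (n : ℕ) (hn : 1 ≤ n) :
    ∃ Y, T.dim Y = n ∧ T.nu Y = n / T.dim X * T.nu X + n % T.dim X := by
  have hdiv := Nat.div_add_mod n (T.dim X)
  rcases Nat.eq_zero_or_pos (n / T.dim X) with hk | hk
  · obtain ⟨P, h1, h2⟩ := curves hT n hn
    refine ⟨P, h1, ?_⟩
    rw [hk, mul_zero, zero_add] at hdiv
    rw [hk, zero_mul, zero_add, h2, hdiv]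
  · obtain ⟨P, h1, h2⟩ := powers hT X (n / T.dim X) hk
    rw [mul_comm] at h1
    rcases Nat.eq_zero_or_pos (n % T.dim X) with hr | hr
    · exact ⟨P, by omega, by rw [hr, add_zero, h2]⟩
    · obtain ⟨L, h3, h4⟩ := curves hT (n % T.dim X) hr
      obtain ⟨W, h5, h6⟩ := hT.prod P L
      exact ⟨W, by omega, by rw [h6, h2, h4]⟩

theorem slope_iff (hT : IsKnown T) (c : ℝ) (hc : c ≤ 1) :
    SlopeBound T c ↔ WeakSlopeBound T c := by
  constructor
  · intro h ε hε
    refine (Eventually.of_forall fun n X hX => ?_).frequently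
    have h1 := h X
    rw [hX] at h1
    have h2 : 0 ≤ ε * (n : ℝ) := by positivity
    linarith
  · intro h X
    by_contra hX
    push Not at hX
    rw [← sub_pos] at hX
    have hd : 0 < T.dim X := by
      rcases Nat.eq_zero_or_pos (T.dim X) with h0 | h0
      · exfalso
        rw [h0, Nat.cast_zero, mul_zero, zero_sub] at hX
        have : (0 : ℝ) ≤ T.nu X := Nat.cast_nonneg _
        linarith
      · exact h0
    have hdR : (0 : ℝ) < T.dim X := by exact_mod_cast hd
    obtain ⟨t, ht⟩ : ∃ t : ℝ, t = c * T.dim X - T.nu X := ⟨_, rfl⟩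
    rw [← ht] at hX
    obtain ⟨N, hN⟩ := exists_nat_gt ((2 * t + 2 * T.dim X) / (t / T.dim X))
    obtain ⟨n, hn, hn2⟩ := (frequently_atTop.1 (h (t / (2 * T.dim X)) (by positivity))) (N + 1)
    obtain ⟨Y, hY1, hY2⟩ := exists_power hT X n (by omega)
    have h3 := hn2 Y hY1
    rw [hY2] at h3
    push_cast at h3
    have h4 : (n : ℝ) = T.dim X * (n / T.dim X : ℕ) + (n % T.dim X : ℕ) := by
      exact_mod_cast (Nat.div_add_mod n (T.dim X)).symm
    have h5 : ((n % T.dim X : ℕ) : ℝ) < T.dim X := by exact_mod_cast Nat.mod_lt n hd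
    have h6 : (0 : ℝ) ≤ (n % T.dim X : ℕ) := Nat.cast_nonneg _
    obtain ⟨k, hk⟩ : ∃ k : ℝ, k = (n / T.dim X : ℕ) := ⟨_, rfl⟩
    obtain ⟨r, hr⟩ : ∃ r : ℝ, r = (n % T.dim X : ℕ) := ⟨_, rfl⟩
    rw [← hk, ← hr] at h3 h4
    rw [← hr] at h5 h6
    have h7 : (2 * t + 2 * T.dim X) / (t / T.dim X) < n := by
      refine hN.trans ?_
      have : (N : ℝ) + 1 ≤ n := by exact_mod_cast hn
      linarith
    rw [div_lt_iff₀ (by positivity)] at h7
    have h8 : (n : ℝ) * (t / T.dim X) = 2 * (t / (2 * T.dim X) * n) := by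
      field_simp
    have h9 : t / (2 * T.dim X) * n * (2 * T.dim X) = t * n := by
      field_simp
    have e1 : (T.nu X : ℝ) = c * T.dim X - t := by linarith
    have h10 : c * (n : ℝ) - (k * T.nu X + r) = k * t - (1 - c) * r := by
      rw [e1, h4]; ring
    have h11 : k * t - (1 - c) * r ≤ t / (2 * T.dim X) * n := by linarith
    have hc0 : 0 ≤ c := by
      by_contra hc0
      push Not at hc0
      have : (0 : ℝ) ≤ T.nu X := Nat.cast_nonneg _
      nlinarith
    have h12 : (1 - c) * r ≤ T.dim X := by nlinarith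
    have h13 : k * t * T.dim X = (n - r) * t := by rw [h4]; ring
    have h14 : k * t = (n * (t / T.dim X)) - r * (t / T.dim X) := by
      field_simp
      linarith
    have h15 : r * (t / T.dim X) ≤ t := by
      rw [mul_div_assoc', div_le_iff₀ hdR]
      nlinarith
    linarith

/-- **Kobayashi's conjecture up to `o(dim)`.** For all data with the known properties:

* for every hyperbolic `X` and `n ≥ 1` there is a hyperbolic manifold of dimension `n` with numerical
  dimension `⌊n / dim X⌋ ν(X) + (n mod dim X)`; if `K_X` is not ample this is at most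
  `n - ⌊n / dim X⌋`;
* `K_X` is ample for all hyperbolic `X` if and only if for every `ε > 0` there are arbitrarily large `n` with
  `ν ≥ (1 - ε) n` for all hyperbolic `X` of dimension `n`;
* for every real `c ≤ 1`: `ν ≥ c dim X` for all hyperbolic `X` if and only if for every `ε > 0` there are
  arbitrarily large `n` with `ν ≥ (c - ε) n` for all hyperbolic `X` of dimension `n`;
* if for every `N` there is `n ≥ 1` with `ν ≥ N` for all hyperbolic `X` of dimension `n`, then `ν > 0` for
  all hyperbolic `X` of positive dimension. -/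
theorem result (T : Hyperbolic.{u}) (hT : IsKnown T) :
    (∀ (X : T.Var) (n : ℕ), 1 ≤ n →
      (∃ Y : T.Var, T.dim Y = n ∧ T.nu Y = n / T.dim X * T.nu X + n % T.dim X) ∧
      (¬ T.Ample X → n / T.dim X * T.nu X + n % T.dim X + n / T.dim X ≤ n)) ∧
    (Conjecture T ↔ WeakSlopeBound T 1) ∧
    (∀ c : ℝ, c ≤ 1 → (SlopeBound T c ↔ WeakSlopeBound T c)) ∧
    ((∀ N : ℕ, ∃ n : ℕ, 1 ≤ n ∧ ∀ X : T.Var, T.dim X = n → N ≤ T.nu X) →
      ∀ X : T.Var, 0 < T.dim X → 0 < T.nu X) := by
  refine ⟨fun X n hn => ⟨exists_power hT X n hn, fun hX => ?_⟩, ?_, slope_iff hT, fun h X hX => ?_⟩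
  · have h1 : T.nu X ≠ T.dim X := fun e => hX ((hT.ample_iff X).2 e)
    have h2 := hT.nu_le X
    have h3 := Nat.div_add_mod n (T.dim X)
    have h4 : n / T.dim X * T.nu X + n / T.dim X ≤ T.dim X * (n / T.dim X) := by
      calc n / T.dim X * T.nu X + n / T.dim X = n / T.dim X * (T.nu X + 1) := by ring
        _ ≤ n / T.dim X * T.dim X := Nat.mul_le_mul_left _ (by omega)
        _ = T.dim X * (n / T.dim X) := by ring
    omega
  · rw [← slope_iff hT 1 le_rfl]
    constructor
    · intro h X
      rw [one_mul, (hT.ample_iff X).1 (h X)]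
    · intro h X
      have h1 := h X
      rw [one_mul] at h1
      have h2 : T.dim X ≤ T.nu X := by exact_mod_cast h1
      exact (hT.ample_iff X).2 (le_antisymm (hT.nu_le X) h2)
  · by_contra h0
    have h0' : T.nu X = 0 := by omega
    obtain ⟨n, hn, hall⟩ := h (T.dim X)
    obtain ⟨Y, h1, h2⟩ := exists_power hT X n hn
    have h3 := hall Y h1
    rw [h0', mul_zero, zero_add] at h2
    have h4 := Nat.mod_lt n hX
    omega

end Pool.Agent.Results.MP_1e3e9c_ag.SublinearErrors
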